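import Pool.Agent.MP_815355_co.Defs

-- part MP_815355_co.General
section

/-! General facts on induced densities. -/

namespace Pool.Agent.MP_815355_co

open MeasureTheory Finset

theorem weight_nonneg (φ : Graphon) {n : ℕ} (H : SimpleGraph (Fin n))
    (x : Fin n → unitInterval) : 0 ≤ weight φ H x := by
  unfold weight
  refine prod_nonneg fun p _ => ?_
  split_ifs
  · exact φ.nonneg _ _
  · linarith [φ.le_one (x p.1.1) (x p.1.2)]

theorem weight_le_one (φ : Graphon) {n : ℕ} (H : SimpleGraph (Fin n))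
    (x : Fin n → unitInterval) : weight φ H x ≤ 1 := by
  unfold weight
  refine prod_le_one (fun p _ => ?_) fun p _ => ?_
  · split_ifs
    · exact φ.nonneg _ _
    · linarith [φ.le_one (x p.1.1) (x p.1.2)]
  · split_ifs
    · exact φ.le_one _ _
    · linarith [φ.nonneg (x p.1.1) (x p.1.2)]

theorem measurable_weight (φ : Graphon) {n : ℕ} (H : SimpleGraph (Fin n)) :
    Measurable (weight φ H) := by
  unfold weight
  refine Finset.measurable_prod _ fun p _ => ?_
  have h : Measurable fun x : Fin n → unitInterval => φ.W (x p.1.1) (x p.1.2) :=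
    φ.meas.comp (f := fun x : Fin n → unitInterval => (x p.1.1, x p.1.2))
      ((measurable_pi_apply p.1.1).prodMk (measurable_pi_apply p.1.2))
  split_ifs
  · exact h
  · exact measurable_const.sub h

theorem integrable_of_bdd {n : ℕ} {g : (Fin n → unitInterval) → ℝ} (hg : Measurable g)
    (h0 : ∀ x, 0 ≤ g x) (h1 : ∀ x, g x ≤ 1) : Integrable g :=
  Integrable.of_bound hg.aestronglyMeasurable 1 (Filter.Eventually.of_forall fun x => by
    rw [Real.norm_eq_abs, abs_of_nonneg (h0 x)]; exact h1 x)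

theorem integrable_weight (φ : Graphon) {n : ℕ} (H : SimpleGraph (Fin n)) :
    Integrable (weight φ H) :=
  integrable_of_bdd (measurable_weight φ H) (weight_nonneg φ H) (weight_le_one φ H)

theorem density_nonneg (φ : Graphon) {n : ℕ} (H : SimpleGraph (Fin n)) : 0 ≤ density φ H :=
  integral_nonneg (weight_nonneg φ H)

/-- graphs on `Fin n` as functions on increasing pairs -/
noncomputable def graphEquiv (n : ℕ) :
    SimpleGraph (Fin n) ≃ ({p : Fin n × Fin n // p.1 < p.2} → Prop) where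
  toFun H p := H.Adj p.1.1 p.1.2
  invFun s :=
    { Adj := fun a b => (∃ h : a < b, s ⟨(a, b), h⟩) ∨ ∃ h : b < a, s ⟨(b, a), h⟩
      symm := ⟨fun _ _ h => h.symm⟩
      loopless := ⟨fun a h => by rcases h with ⟨h, -⟩ | ⟨h, -⟩ <;> exact lt_irrefl _ h⟩ }
  left_inv H := by
    ext a b
    constructor
    · rintro (⟨_, h⟩ | ⟨_, h⟩)
      · exact h
      · exact h.symm
    · intro h
      rcases lt_or_gt_of_ne h.ne with h1 | h1
      · exact Or.inl ⟨h1, h⟩
      · exact Or.inr ⟨h1, h.symm⟩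
  right_inv s := by
    funext p
    apply propext
    constructor
    · rintro (⟨_, h⟩ | ⟨h, -⟩)
      · exact h
      · exact absurd p.2 (not_lt.2 h.le)
    · intro h
      exact Or.inl ⟨p.2, h⟩

open Classical in
theorem sum_weight (φ : Graphon) {n : ℕ} (x : Fin n → unitInterval) :
    ∑ H : SimpleGraph (Fin n), weight φ H x = 1 := by
  have h1 := Finset.prod_univ_sum (fun _ : {p : Fin n × Fin n // p.1 < p.2} => (univ : Finset Prop))
    (fun p (b : Prop) => if b then φ.W (x p.1.1) (x p.1.2) else 1 - φ.W (x p.1.1) (x p.1.2))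
  have h2 : ∀ p : {p : Fin n × Fin n // p.1 < p.2},
      (∑ b : Prop, if b then φ.W (x p.1.1) (x p.1.2) else 1 - φ.W (x p.1.1) (x p.1.2)) = 1 := by
    intro p
    rw [Fintype.univ_Prop, sum_pair (by simp)]
    simp
  simp only [h2, prod_const_one, Fintype.piFinset_univ] at h1
  rw [h1]
  exact Fintype.sum_equiv (graphEquiv n) _ _ fun H => rfl

open Classical in
theorem sum_density (φ : Graphon) (n : ℕ) : ∑ H : SimpleGraph (Fin n), density φ H = 1 := by
  unfold density
  rw [← integral_finsetSum _ fun H _ => integrable_weight φ H]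
  simp [sum_weight]

open Classical in
theorem weight_ne_zero_iff (φ : Graphon) {n : ℕ} (H : SimpleGraph (Fin n))
    (x : Fin n → unitInterval) : weight φ H x ≠ 0 ↔ ∀ a b, a ≠ b →
      (if H.Adj a b then φ.W (x a) (x b) else 1 - φ.W (x a) (x b)) ≠ 0 := by
  unfold weight
  rw [prod_ne_zero_iff]
  constructor
  · intro h a b hab
    rcases lt_or_gt_of_ne hab with h1 | h1
    · exact h ⟨(a, b), h1⟩ (mem_univ _)
    · have := h ⟨(b, a), h1⟩ (mem_univ _)
      simpa [H.adj_comm a b, φ.symm (x a) (x b)] using this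
  · intro h p _
    exact h _ _ p.2.ne

theorem measurePreserving_comp {h n : ℕ} (e : Fin h → Fin n) (he : Function.Injective e) :
    MeasurePreserving (fun (x : Fin n → unitInterval) a => x (e a)) volume volume := by
  refine ⟨by fun_prop, ?_⟩
  have h1 : ProbabilityTheory.iIndepFun (fun (i : Fin n) (x : Fin n → unitInterval) => x i)
      (Measure.pi fun _ => volume) :=
    ProbabilityTheory.iIndepFun_pi (X := fun _ => id) fun _ => aemeasurable_id
  have h2 := (h1.precomp he).map_fun_eq_pi_map fun a => (measurable_pi_apply _).aemeasurable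
  rw [volume_pi, volume_pi, h2]
  congr 1
  funext a
  exact (measurePreserving_eval (fun _ : Fin n => (volume : Measure unitInterval)) (e a)).map_eq

theorem density_eq_zero_of_copy (φ : Graphon) {h n : ℕ} (H : SimpleGraph (Fin h))
    (F : SimpleGraph (Fin n)) (e : Fin h → Fin n) (he : Function.Injective e)
    (hadj : ∀ a b, a ≠ b → (H.Adj a b ↔ F.Adj (e a) (e b))) (h0 : density φ H = 0) :
    density φ F = 0 := by
  have h1 : weight φ H =ᵐ[volume] 0 :=
    (integral_eq_zero_iff_of_nonneg (weight_nonneg φ H) (integrable_weight φ H)).1 h0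
  have h2 := (measurePreserving_comp e he).quasiMeasurePreserving.ae h1
  refine integral_eq_zero_of_ae ?_
  filter_upwards [h2] with x hx
  by_contra hne
  refine (weight_ne_zero_iff φ H (fun a => x (e a))).2 (fun a b hab => ?_) hx
  have := (weight_ne_zero_iff φ F x).1 hne (e a) (e b) (he.ne hab)
  by_cases hH : H.Adj a b
  · rw [if_pos hH]; rwa [if_pos ((hadj a b hab).1 hH)] at this
  · rw [if_neg hH]; rwa [if_neg fun h => hH ((hadj a b hab).2 h)] at this

theorem SubObject.exists_const {ψ φ : Graphon} (h : SubObject ψ φ) :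
    ∃ c : ℝ, 0 < c ∧ ∀ (n : ℕ) (H : SimpleGraph (Fin n)), c ^ n * density ψ H ≤ density φ H := by
  obtain ⟨W, hW, f, hf, hf01, hpos, hd⟩ := h
  refine ⟨∫ y, f y, hpos, fun n H => ?_⟩
  rw [hd, densityOn, mul_div_cancel₀ _ (pow_pos hpos n).ne', ← hW]
  have hp0 : ∀ x : Fin n → unitInterval, 0 ≤ ∏ i, f (x i) :=
    fun x => prod_nonneg fun i _ => (hf01 _).1
  have hp1 : ∀ x : Fin n → unitInterval, ∏ i, f (x i) ≤ 1 :=
    fun x => prod_le_one (fun i _ => (hf01 _).1) fun i _ => (hf01 _).2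
  refine integral_mono_of_nonneg (Filter.Eventually.of_forall fun x => ?_) (integrable_weight W H)
    (Filter.Eventually.of_forall fun x => ?_)
  · exact mul_nonneg (hp0 x) (weight_nonneg W H x)
  · exact mul_le_of_le_one_left (weight_nonneg W H x) (hp1 x)

end Pool.Agent.MP_815355_co

end

-- part MP_815355_co.Blowup
section

/-! The recursive blow-up graphons. -/

namespace Pool.Agent.MP_815355_co

open MeasureTheory Finset

/-- index of the dyadic interval of length `2^{-i}` containing `x` -/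
noncomputable def cyl (i : ℕ) (x : unitInterval) : ℕ := ⌊(2 : ℝ) ^ i * Int.fract (x : ℝ)⌋₊

theorem cyl_lt (i : ℕ) (x : unitInterval) : cyl i x < 2 ^ i := by
  unfold cyl
  have h0 := Int.fract_nonneg (x : ℝ)
  have h1 := Int.fract_lt_one (x : ℝ)
  rw [Nat.floor_lt (by positivity)]
  push_cast
  have : (0 : ℝ) < 2 ^ i := by positivity
  nlinarith

theorem cyl_div {i D : ℕ} (h : i ≤ D) (x : unitInterval) : cyl D x / 2 ^ (D - i) = cyl i x := by
  unfold cyl
  rw [← Nat.floor_div_natCast]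
  congr 1
  obtain ⟨k, rfl⟩ := Nat.exists_eq_add_of_le h
  rw [Nat.add_sub_cancel_left]
  push_cast
  field_simp
  ring

theorem measurable_cyl (i : ℕ) : Measurable (cyl i) :=
  (measurable_const.mul measurable_subtype_coe.fract).nat_floor

theorem vol_cyl {i k : ℕ} (hk : k < 2 ^ i) :
    (volume : Measure unitInterval) {x | cyl i x = k} = ENNReal.ofReal (1 / 2 ^ i) := by
  have hs : MeasurableSet {y : ℝ | ⌊(2 : ℝ) ^ i * Int.fract y⌋₊ = k} :=
    measurableSet_eq_fun (measurable_const.mul measurable_fract).nat_floor measurable_const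
  have h1 := unitInterval.measurePreserving_coe.measure_preimage hs.nullMeasurableSet
  have h2 : (volume : Measure ℝ).restrict unitInterval = volume.restrict (Set.Ico 0 1) :=
    (Measure.restrict_congr_set Ico_ae_eq_Icc).symm
  have h3 : {y : ℝ | ⌊(2 : ℝ) ^ i * Int.fract y⌋₊ = k} ∩ Set.Ico 0 1 =
      Set.Ico ((k : ℝ) / 2 ^ i) ((k + 1) / 2 ^ i) := by
    have hp : (0 : ℝ) < 2 ^ i := by positivity
    have hk' : (k : ℝ) + 1 ≤ 2 ^ i := by exact_mod_cast hk
    ext y
    simp only [Set.mem_inter_iff, Set.mem_ofPred_eq, Set.mem_Ico]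
    constructor
    · rintro ⟨h, h0, h1⟩
      rw [Int.fract_eq_self.2 ⟨h0, h1⟩, Nat.floor_eq_iff (by positivity)] at h
      rw [div_le_iff₀ hp, lt_div_iff₀ hp]
      constructor <;> linarith [h.1, h.2]
    · rintro ⟨ha, hb⟩
      rw [div_le_iff₀ hp] at ha
      rw [lt_div_iff₀ hp] at hb
      have hk0 : (0 : ℝ) ≤ k := Nat.cast_nonneg k
      have h0 : 0 ≤ y := by nlinarith
      have h1 : y < 1 := by nlinarith
      refine ⟨?_, h0, h1⟩
      rw [Int.fract_eq_self.2 ⟨h0, h1⟩, Nat.floor_eq_iff (by positivity)]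
      constructor <;> linarith
  rw [h2, Measure.restrict_apply hs, h3, Real.volume_Ico] at h1
  have h4 : ((k : ℝ) + 1) / 2 ^ i - k / 2 ^ i = 1 / 2 ^ i := by ring
  rw [h4] at h1
  exact h1

theorem vol_cyl_le (i k : ℕ) :
    (volume : Measure unitInterval) {x | cyl i x = k} ≤ ENNReal.ofReal (1 / 2 ^ i) := by
  by_cases hk : k < 2 ^ i
  · exact (vol_cyl hk).le
  · have : {x | cyl i x = k} = ∅ := by
      ext x
      have := cyl_lt i x
      simp only [Set.mem_ofPred_eq, Set.mem_empty_iff_false, iff_false]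
      omega
    simp [this]

theorem vol_pi_eq {n D : ℕ} (g : Fin n → ℕ) :
    (volume : Measure (Fin n → unitInterval)) ((fun x a => cyl D (x a)) ⁻¹' {g}) =
      ∏ a, volume {y | cyl D y = g a} := by
  rw [← volume_pi_pi]
  congr 1
  ext x
  simp [funext_iff]

theorem measurable_cylpi (n D : ℕ) :
    Measurable fun (x : Fin n → unitInterval) a => cyl D (x a) :=
  measurable_pi_lambda _ fun a => (measurable_cyl D).comp (measurable_pi_apply a)

theorem vol_T_le {n D : ℕ} (T : Finset (Fin n → ℕ)) :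
    (volume : Measure (Fin n → unitInterval)).real ((fun x a => cyl D (x a)) ⁻¹' T) ≤
      T.card * (1 / 2 ^ D) ^ n := by
  rw [← sum_measureReal_preimage_singleton _
    fun g _ => measurable_cylpi n D (measurableSet_singleton g)]
  refine (sum_le_card_nsmul _ _ ((1 / 2 ^ D) ^ n) fun g _ => ?_).trans (by simp)
  rw [measureReal_def, vol_pi_eq, ENNReal.toReal_prod]
  calc ∏ a, (volume {y | cyl D y = g a}).toReal ≤ ∏ _a : Fin n, (1 / 2 ^ D : ℝ) :=
        prod_le_prod (fun _ _ => ENNReal.toReal_nonneg) fun a _ =>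
          ENNReal.toReal_le_of_le_ofReal (by positivity) (vol_cyl_le D _)
    _ = _ := by simp

theorem vol_T_eq {n D : ℕ} (T : Finset (Fin n → ℕ)) (hT : ∀ g ∈ T, ∀ a, g a < 2 ^ D) :
    (volume : Measure (Fin n → unitInterval)).real ((fun x a => cyl D (x a)) ⁻¹' T) =
      T.card * (1 / 2 ^ D) ^ n := by
  rw [← sum_measureReal_preimage_singleton _
    fun g _ => measurable_cylpi n D (measurableSet_singleton g)]
  rw [← nsmul_eq_mul, ← sum_const]
  refine sum_congr rfl fun g hg => ?_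
  rw [measureReal_def, vol_pi_eq, ENNReal.toReal_prod]
  calc ∏ a, (volume {y | cyl D y = g a}).toReal = ∏ _a : Fin n, (1 / 2 ^ D : ℝ) :=
        prod_congr rfl fun a _ => by
          rw [vol_cyl (hT g hg a), ENNReal.toReal_ofReal (by positivity)]
    _ = _ := by simp

/-- adjacency of points: they first split at a level in `G` -/
def padj (G : Set ℕ) (x y : unitInterval) : Prop :=
  ∃ i ∈ G, cyl i x = cyl i y ∧ cyl (i + 1) x ≠ cyl (i + 1) y

theorem padj_symm {G : Set ℕ} {x y : unitInterval} (h : padj G x y) : padj G y x := by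
  obtain ⟨i, h1, h2, h3⟩ := h
  exact ⟨i, h1, h2.symm, h3.symm⟩

theorem measurableSet_padj (G : Set ℕ) :
    MeasurableSet {p : unitInterval × unitInterval | padj G p.1 p.2} := by
  have : {p : unitInterval × unitInterval | padj G p.1 p.2} = ⋃ i ∈ G,
      {p | cyl i p.1 = cyl i p.2} ∩ {p | cyl (i + 1) p.1 = cyl (i + 1) p.2}ᶜ := by
    ext p; simp [padj, and_left_comm]
  rw [this]
  refine MeasurableSet.biUnion (Set.to_countable G) fun i _ => ?_
  exact (measurableSet_eq_fun ((measurable_cyl _).comp measurable_fst)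
    ((measurable_cyl _).comp measurable_snd)).inter
    (measurableSet_eq_fun ((measurable_cyl _).comp measurable_fst)
      ((measurable_cyl _).comp measurable_snd)).compl

open Classical in
/-- The recursive blow-up graphon: joins at the levels in `G`, disjoint unions elsewhere. -/
noncomputable def WG (G : Set ℕ) : Graphon where
  W x y := if padj G x y then 1 else 0
  symm x y := by
    have : padj G x y ↔ padj G y x := ⟨padj_symm, padj_symm⟩
    simp [this]
  meas := Measurable.ite (measurableSet_padj G) measurable_const measurable_const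
  nonneg x y := by split_ifs <;> norm_num
  le_one x y := by split_ifs <;> norm_num

/-- the graph sampled at the points `x` -/
def graphOf (G : Set ℕ) {n : ℕ} (x : Fin n → unitInterval) : SimpleGraph (Fin n) where
  Adj a b := padj G (x a) (x b)
  symm := ⟨fun _ _ => padj_symm⟩
  loopless := ⟨fun a h => by obtain ⟨i, -, -, h⟩ := h; exact h rfl⟩

theorem weight_WG_ne_zero {G : Set ℕ} {n : ℕ} {H : SimpleGraph (Fin n)}
    {x : Fin n → unitInterval} (h : weight (WG G) H x ≠ 0) : H = graphOf G x := by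
  rw [weight_ne_zero_iff] at h
  ext a b
  by_cases hab : a = b
  · subst hab; simp
  · have := h a b hab
    simp only [WG] at this
    show H.Adj a b ↔ padj G (x a) (x b)
    by_cases h1 : H.Adj a b <;> by_cases h2 : padj G (x a) (x b) <;> simp_all

theorem weight_WG_self (G : Set ℕ) {n : ℕ} (x : Fin n → unitInterval) :
    weight (WG G) (graphOf G x) x = 1 := by
  unfold weight
  refine prod_eq_one fun p _ => ?_
  simp only [WG, graphOf]
  split_ifs <;> simp

open Classical in
theorem sum_density_WG_le (G : Set ℕ) {n : ℕ} (P : Finset (SimpleGraph (Fin n)))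
    (E : Set (Fin n → unitInterval)) (hE : MeasurableSet E) (h : ∀ x, graphOf G x ∈ P → x ∈ E) :
    ∑ F ∈ P, density (WG G) F ≤ volume.real E := by
  unfold density
  rw [← integral_finsetSum _ fun H _ => integrable_weight _ H, ← integral_indicator_one hE]
  refine integral_mono (integrable_finsetSum _ fun H _ => integrable_weight _ H)
    ((integrable_const 1).indicator hE) fun x => ?_
  by_cases hx : x ∈ E
  · rw [Set.indicator_of_mem hx]
    calc ∑ F ∈ P, weight (WG G) F x ≤ ∑ F, weight (WG G) F x :=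
          sum_le_sum_of_subset_of_nonneg (subset_univ _) fun F _ _ => weight_nonneg _ _ _
      _ = 1 := sum_weight _ x
  · rw [Set.indicator_of_notMem hx]
    refine (sum_eq_zero fun F hF => ?_).le
    by_contra hne
    exact hx (h x (weight_WG_ne_zero hne ▸ hF))

theorem le_density_WG (G : Set ℕ) {n : ℕ} (F : SimpleGraph (Fin n))
    (E : Set (Fin n → unitInterval)) (hE : MeasurableSet E) (h : ∀ x ∈ E, graphOf G x = F) :
    volume.real E ≤ density (WG G) F := by
  unfold density
  rw [← integral_indicator_one hE]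
  refine integral_mono ((integrable_const 1).indicator hE) (integrable_weight _ F) fun x => ?_
  by_cases hx : x ∈ E
  · rw [Set.indicator_of_mem hx, ← h x hx, weight_WG_self]
    exact le_rfl
  · rw [Set.indicator_of_notMem hx]
    exact weight_nonneg _ _ _

theorem cyl_eq_of_le {i j : ℕ} (h : i ≤ j) {x y : unitInterval} (hxy : cyl j x = cyl j y) :
    cyl i x = cyl i y := by
  rw [← cyl_div h x, ← cyl_div h y, hxy]

theorem padj_iff_of_split {G : Set ℕ} {i : ℕ} {x y : unitInterval} (h1 : cyl i x = cyl i y)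
    (h2 : cyl (i + 1) x ≠ cyl (i + 1) y) : padj G x y ↔ i ∈ G := by
  constructor
  · rintro ⟨j, hj, h3, h4⟩
    rcases lt_trichotomy i j with h | rfl | h
    · exact absurd (cyl_eq_of_le h h3) h2
    · exact hj
    · exact absurd (cyl_eq_of_le h h1) h4
  · intro h; exact ⟨i, h, h1, h2⟩

theorem cographOn_of_indep {n : ℕ} (H : SimpleGraph (Fin n)) (S : Finset (Fin n))
    (h : ∀ a ∈ S, ∀ b ∈ S, ¬ H.Adj a b) : CographOn H S := by
  induction S using Finset.induction_on with
  | empty => simpa using CographOn.empty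
  | insert v S hv ih =>
    rw [coe_insert, Set.insert_eq]
    refine CographOn.union _ _ (.single v)
      (ih fun a ha b hb => h a (mem_insert_of_mem ha) b (mem_insert_of_mem hb))
      (by simpa using hv) ?_
    rintro a rfl b hb
    exact h _ (mem_insert_self _ _) b (mem_insert_of_mem hb)

theorem cograph_graphOf (G : Set ℕ) {n : ℕ} (x : Fin n → unitInterval) :
    CographOn (graphOf G x) Set.univ := by
  classical
  have h1 : ∀ p : Fin n × Fin n, ∃ D : ℕ, ∀ i, D ≤ i → cyl D (x p.1) = cyl D (x p.2) →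
      cyl i (x p.1) = cyl i (x p.2) := by
    intro p
    by_cases h : ∀ i, cyl i (x p.1) = cyl i (x p.2)
    · exact ⟨0, fun i _ _ => h i⟩
    · push Not at h
      obtain ⟨D, hD⟩ := h
      exact ⟨D, fun _ _ h => absurd h hD⟩
  choose D' hD' using h1
  obtain ⟨D, hD⟩ : ∃ D, ∀ p, D' p ≤ D := ⟨univ.sup D', fun p => le_sup (mem_univ p)⟩
  have key : ∀ t ≤ D, ∀ k, CographOn (graphOf G x) {a | cyl (D - t) (x a) = k} := by
    intro t
    induction t with
    | zero =>
      intro _ k
      have := cographOn_of_indep (graphOf G x) (univ.filter fun a => cyl D (x a) = k) (by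
        intro a ha b hb
        rintro ⟨i, -, -, h3⟩
        have hab : cyl D (x a) = cyl D (x b) := by
          rw [(mem_filter.1 ha).2, (mem_filter.1 hb).2]
        by_cases hi : i + 1 ≤ D
        · exact h3 (cyl_eq_of_le hi hab)
        · exact h3 (hD' (a, b) (i + 1) (by have := hD (a, b); omega)
            (cyl_eq_of_le (hD (a, b)) hab)))
      simpa using this
    | succ t ih =>
      intro ht k
      obtain ⟨l, hl⟩ : ∃ l, D - (t + 1) = l := ⟨_, rfl⟩
      have hl' : D - t = l + 1 := by omega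
      have ih' := ih (by omega)
      rw [hl'] at ih'
      rw [hl]
      have hc : ∀ y, cyl (l + 1) y / 2 = cyl l y := fun y => by
        simpa using cyl_div (Nat.le_succ l) y
      have e : {a | cyl l (x a) = k} =
          {a | cyl (l + 1) (x a) = 2 * k} ∪ {a | cyl (l + 1) (x a) = 2 * k + 1} := by
        ext a
        have := hc (x a)
        simp only [Set.mem_ofPred_eq, Set.mem_union]
        omega
      have hdis : Disjoint {a | cyl (l + 1) (x a) = 2 * k} {a | cyl (l + 1) (x a) = 2 * k + 1} := by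
        rw [Set.disjoint_left]
        intro a h1 h2
        simp only [Set.mem_ofPred_eq] at h1 h2
        omega
      have hadj : ∀ a ∈ {a | cyl (l + 1) (x a) = 2 * k}, ∀ b ∈ {a | cyl (l + 1) (x a) = 2 * k + 1},
          ((graphOf G x).Adj a b ↔ l ∈ G) := by
        intro a ha b hb
        simp only [Set.mem_ofPred_eq] at ha hb
        have h1 := hc (x a)
        have h2 := hc (x b)
        exact padj_iff_of_split (by omega) (by omega)
      rw [e]
      by_cases hG : l ∈ G
      · exact .join _ _ (ih' _) (ih' _) hdis fun a ha b hb => (hadj a ha b hb).2 hG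
      · exact .union _ _ (ih' _) (ih' _) hdis fun a ha b hb h => hG ((hadj a ha b hb).1 h)
  have := key D le_rfl 0
  have e : {a | cyl (D - D) (x a) = 0} = Set.univ := by
    ext a
    have := cyl_lt 0 (x a)
    simp only [Nat.sub_self, Set.mem_ofPred_eq, Set.mem_univ, iff_true]
    omega
  rwa [e] at this

theorem Qset_WG_subset (G : Set ℕ) : Qset (WG G) ⊆ cographs := by
  rintro ⟨n, H⟩ h
  obtain ⟨x, hx⟩ : ∃ x, weight (WG G) H x ≠ 0 := by
    by_contra hcon
    push Not at hcon
    have : density (WG G) H = 0 := by simp [density, hcon]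
    exact absurd this (ne_of_gt h)
  show CographOn H Set.univ
  rw [weight_WG_ne_zero hx]
  exact cograph_graphOf G x

end Pool.Agent.MP_815355_co

end

-- part MP_815355_co.Embed
section

/-! Every dense set of cylinders contains every cograph. -/

namespace Pool.Agent.MP_815355_co

open MeasureTheory Finset

/-- adjacency of two cylinders of depth `D` -/
def adj (G : Set ℕ) (D u v : ℕ) : Prop :=
  ∃ i < D, i ∈ G ∧ u / 2 ^ (D - i) = v / 2 ^ (D - i) ∧ u / 2 ^ (D - (i + 1)) ≠ v / 2 ^ (D - (i + 1))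

theorem adj_symm {G : Set ℕ} {D u v : ℕ} (h : adj G D u v) : adj G D v u := by
  obtain ⟨i, h0, h1, h2, h3⟩ := h
  exact ⟨i, h0, h1, h2.symm, h3.symm⟩

theorem padj_iff_adj {G : Set ℕ} {D : ℕ} {x y : unitInterval} (h : cyl D x ≠ cyl D y) :
    padj G x y ↔ adj G D (cyl D x) (cyl D y) := by
  constructor
  · rintro ⟨i, h1, h2, h3⟩
    have hi : i < D := by
      by_contra hi
      exact h (cyl_eq_of_le (not_lt.1 hi) h2)
    refine ⟨i, hi, h1, ?_, ?_⟩
    · rw [cyl_div hi.le, cyl_div hi.le, h2]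
    · rw [cyl_div hi, cyl_div hi]; exact h3
  · rintro ⟨i, hi, h1, h2, h3⟩
    rw [cyl_div hi.le, cyl_div hi.le] at h2
    rw [cyl_div hi, cyl_div hi] at h3
    exact ⟨i, h1, h2, h3⟩

theorem anc_div {j i D : ℕ} (h1 : j ≤ i) (h2 : i ≤ D) (u : ℕ) :
    u / 2 ^ (D - j) = u / 2 ^ (D - i) / 2 ^ (i - j) := by
  rw [Nat.div_div_eq_div_mul, ← pow_add]
  congr 2
  omega

theorem adj_iff_of_split {G : Set ℕ} {D i u v : ℕ} (hi : i < D)
    (h1 : u / 2 ^ (D - i) = v / 2 ^ (D - i)) (h2 : u / 2 ^ (D - (i + 1)) ≠ v / 2 ^ (D - (i + 1))) :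
    adj G D u v ↔ i ∈ G := by
  constructor
  · rintro ⟨j, hj, h3, h4, h5⟩
    rcases lt_trichotomy i j with h | rfl | h
    · exact absurd (by rw [anc_div h hj.le u, anc_div h hj.le v, h4]) h2
    · exact h3
    · exact absurd (by rw [anc_div h hi.le u, anc_div h hi.le v, h1]) h5
  · intro h; exact ⟨i, hi, h, h1, h2⟩

/-- number of elements of `B` below the node `k` of level `i` -/
def cnt (B : Finset ℕ) (D i k : ℕ) : ℕ := (B.filter fun u => u / 2 ^ (D - i) = k).card

theorem cnt_le (B : Finset ℕ) (D i k : ℕ) : cnt B D i k ≤ 2 ^ (D - i) := by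
  unfold cnt
  have hp : 0 < 2 ^ (D - i) := by positivity
  calc _ ≤ (Ico (k * 2 ^ (D - i)) (k * 2 ^ (D - i) + 2 ^ (D - i))).card := by
        refine card_le_card fun u hu => ?_
        have h := (mem_filter.1 hu).2
        rw [mem_Ico, ← h]
        exact ⟨Nat.div_mul_le_self _ _, Nat.lt_div_mul_add hp⟩
    _ = _ := by simp

theorem cnt_succ (B : Finset ℕ) {D i : ℕ} (hi : i < D) (k : ℕ) :
    cnt B D i k = cnt B D (i + 1) (2 * k) + cnt B D (i + 1) (2 * k + 1) := by
  unfold cnt
  rw [← card_union_of_disjoint]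
  · congr 1
    ext u
    have := anc_div (Nat.le_succ i) hi u
    simp only [Nat.succ_eq_add_one, Nat.add_sub_cancel_left, pow_one] at this
    simp only [mem_filter, mem_union]
    constructor
    · rintro ⟨h1, h2⟩
      have : u / 2 ^ (D - (i + 1)) = 2 * k ∨ u / 2 ^ (D - (i + 1)) = 2 * k + 1 := by omega
      tauto
    · rintro (⟨h1, h2⟩ | ⟨h1, h2⟩) <;> exact ⟨h1, by omega⟩
  · rw [disjoint_left]
    intro u h1 h2
    have := (mem_filter.1 h1).2
    have := (mem_filter.1 h2).2
    omega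

theorem cnt_up (B : Finset ℕ) {D j : ℕ} (hj : j ≤ D) (δ : ℝ)
    (h : ∀ k, (cnt B D j k : ℝ) ≤ δ * 2 ^ (D - j)) :
    ∀ t ≤ j, ∀ k, (cnt B D (j - t) k : ℝ) ≤ δ * 2 ^ (D - (j - t)) := by
  intro t
  induction t with
  | zero => intro _; simpa using h
  | succ t ih =>
    intro ht k
    have ih' := ih (by omega)
    have e1 : j - t = j - (t + 1) + 1 := by omega
    rw [e1] at ih'
    rw [cnt_succ B (by omega : j - (t + 1) < D)]
    have e2 : D - (j - (t + 1)) = D - (j - (t + 1) + 1) + 1 := by omega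
    rw [e2, pow_succ]
    push_cast
    linarith [ih' (2 * k), ih' (2 * k + 1)]

/-- a copy of `H[S]` among the cylinders in `B` -/
def Copy (G : Set ℕ) {h : ℕ} (H : SimpleGraph (Fin h)) (S : Set (Fin h)) (D : ℕ) (B : Finset ℕ) :
    Prop :=
  ∃ g : Fin h → ℕ, (∀ a ∈ S, g a ∈ B) ∧
    ∀ a ∈ S, ∀ b ∈ S, a ≠ b → g a ≠ g b ∧ (H.Adj a b ↔ adj G D (g a) (g b))

def Emb (G : Set ℕ) {h : ℕ} (H : SimpleGraph (Fin h)) (S : Set (Fin h)) : Prop :=
  ∀ ε : ℝ, 0 < ε → ∀ l : ℕ, ∃ D0 : ℕ, ∀ D, D0 ≤ D → ∀ (B : Finset ℕ) (k : ℕ),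
    ε * 2 ^ (D - l) < cnt B D l k → Copy G H S D B

theorem cnt_filter (B : Finset ℕ) (D l k : ℕ) :
    cnt (B.filter fun u => u / 2 ^ (D - l) = k) D l k = cnt B D l k := by
  unfold cnt
  rw [filter_filter]
  simp

theorem copy_union {G : Set ℕ} {h : ℕ} {H : SimpleGraph (Fin h)} {S T : Set (Fin h)}
    (hST : Disjoint S T) {D l k : ℕ} (hl : l < D)
    (hadj : ∀ a ∈ S, ∀ b ∈ T, (H.Adj a b ↔ l ∈ G)) {B : Finset ℕ}
    (h1 : Copy G H S D (B.filter fun u => u / 2 ^ (D - (l + 1)) = 2 * k))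
    (h2 : Copy G H T D (B.filter fun u => u / 2 ^ (D - (l + 1)) = 2 * k + 1)) :
    Copy G H (S ∪ T) D B := by
  classical
  obtain ⟨g1, h11, h12⟩ := h1
  obtain ⟨g2, h21, h22⟩ := h2
  have hT : ∀ b ∈ T, b ∉ S := fun b hb hb' => Set.disjoint_left.1 hST hb' hb
  have cross : ∀ a ∈ S, ∀ b ∈ T, g1 a ≠ g2 b ∧ (H.Adj a b ↔ adj G D (g1 a) (g2 b)) := by
    intro a ha b hb
    have e1 := (mem_filter.1 (h11 a ha)).2
    have e2 := (mem_filter.1 (h21 b hb)).2
    have e3 := anc_div (Nat.le_succ l) hl (g1 a)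
    have e4 := anc_div (Nat.le_succ l) hl (g2 b)
    simp only [Nat.succ_eq_add_one, Nat.add_sub_cancel_left, pow_one] at e3 e4
    refine ⟨fun h => ?_, ?_⟩
    · rw [h] at e1; omega
    · rw [hadj a ha b hb, adj_iff_of_split hl (by omega) (by omega)]
  refine ⟨fun a => if a ∈ S then g1 a else g2 a, ?_, ?_⟩
  · rintro a (ha | ha)
    · simp only [if_pos ha]; exact (mem_filter.1 (h11 a ha)).1
    · simp only [if_neg (hT a ha)]; exact (mem_filter.1 (h21 a ha)).1
  · rintro a (ha | ha) b (hb | hb) hab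
    · simp only [if_pos ha, if_pos hb]; exact h12 a ha b hb hab
    · simp only [if_pos ha, if_neg (hT b hb)]; exact cross a ha b hb
    · simp only [if_neg (hT a ha), if_pos hb]
      obtain ⟨c1, c2⟩ := cross b hb a ha
      exact ⟨c1.symm, by rw [H.adj_comm, c2]; exact ⟨adj_symm, adj_symm⟩⟩
    · simp only [if_neg (hT a ha), if_neg (hT b hb)]; exact h22 a ha b hb hab

theorem emb_union {G : Set ℕ} {h : ℕ} {H : SimpleGraph (Fin h)} {S T : Set (Fin h)}
    (hST : Disjoint S T) (hS : Emb G H S) (hT : Emb G H T)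
    (hlev : ∀ l, ∃ l' ≥ l, ∀ a ∈ S, ∀ b ∈ T, (H.Adj a b ↔ l' ∈ G)) : Emb G H (S ∪ T) := by
  intro ε hε
  have key : ∀ t : ℕ, ∀ l : ℕ, ∃ D0 : ℕ, ∀ D, D0 ≤ D → ∀ B : Finset ℕ, ¬ Copy G H (S ∪ T) D B →
      ∀ k, (cnt B D l k : ℝ) ≤ ((1 / 2) ^ t + ε / 2) * 2 ^ (D - l) := by
    intro t
    induction t with
    | zero =>
      intro l
      refine ⟨0, fun D _ B _ k => ?_⟩
      have h1 : (cnt B D l k : ℝ) ≤ 2 ^ (D - l) := by exact_mod_cast cnt_le B D l k
      have h2 : (0 : ℝ) < 2 ^ (D - l) := by positivity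
      nlinarith
    | succ t ih =>
      intro l
      obtain ⟨l', hl', hadj⟩ := hlev l
      obtain ⟨D1, hD1⟩ := ih (l' + 1)
      obtain ⟨D2, hD2⟩ := hS (ε / 2) (by positivity) (l' + 1)
      obtain ⟨D3, hD3⟩ := hT (ε / 2) (by positivity) (l' + 1)
      refine ⟨D1 + D2 + D3 + l' + 1, fun D hD B hB => ?_⟩
      have hup := cnt_up B (D := D) (j := l') (by omega) ((1 / 2) ^ (t + 1) + ε / 2) (by
        intro k
        have a1 := hD1 D (by omega) B hB (2 * k)
        have a2 := hD1 D (by omega) B hB (2 * k + 1)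
        have a3 : (cnt B D (l' + 1) (2 * k) : ℝ) ≤ ε / 2 * 2 ^ (D - (l' + 1)) ∨
            (cnt B D (l' + 1) (2 * k + 1) : ℝ) ≤ ε / 2 * 2 ^ (D - (l' + 1)) := by
          by_contra hcon
          push Not at hcon
          refine hB (copy_union hST (by omega : l' < D) hadj (k := k)
            (hD2 D (by omega) _ (2 * k) ?_) (hD3 D (by omega) _ (2 * k + 1) ?_))
          · rw [cnt_filter]; exact hcon.1
          · rw [cnt_filter]; exact hcon.2
        rw [cnt_succ B (by omega : l' < D)]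
        have e2 : D - l' = D - (l' + 1) + 1 := by omega
        rw [e2, pow_succ, pow_succ]
        push_cast
        rcases a3 with a3 | a3 <;> linarith) (l' - l) (by omega)
      have e : l' - (l' - l) = l := by omega
      rwa [e] at hup
  intro l
  obtain ⟨t, ht⟩ := exists_pow_lt_of_lt_one (half_pos hε) (by norm_num : (1 / 2 : ℝ) < 1)
  obtain ⟨D0, hD0⟩ := key t l
  refine ⟨D0, fun D hD B k hk => ?_⟩
  by_contra hB
  have h1 := hD0 D hD B hB k
  have h2 : (0 : ℝ) < 2 ^ (D - l) := by positivity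
  nlinarith

theorem emb_of_cographOn {G : Set ℕ} (hG1 : ∀ l, ∃ l' ≥ l, l' ∈ G) (hG2 : ∀ l, ∃ l' ≥ l, l' ∉ G)
    {h : ℕ} {H : SimpleGraph (Fin h)} {S : Set (Fin h)} (hS : CographOn H S) : Emb G H S := by
  induction hS with
  | empty => exact fun ε _ l => ⟨0, fun D _ B k _ => ⟨fun _ => 0, by simp, by simp⟩⟩
  | single v =>
    intro ε hε l
    refine ⟨0, fun D _ B k hk => ?_⟩
    have h1 : (0 : ℝ) < cnt B D l k := lt_trans (by positivity) hk
    have h2 : 0 < cnt B D l k := by exact_mod_cast h1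
    obtain ⟨u, hu⟩ := card_pos.1 h2
    refine ⟨fun _ => u, fun _ _ => (mem_filter.1 hu).1, ?_⟩
    rintro a rfl b rfl hab
    exact absurd rfl hab
  | union S T _ _ hST hadj ihS ihT =>
    refine emb_union hST ihS ihT fun l => ?_
    obtain ⟨l', h1, h2⟩ := hG2 l
    exact ⟨l', h1, fun a ha b hb => iff_of_false (hadj a ha b hb) h2⟩
  | join S T _ _ hST hadj ihS ihT =>
    refine emb_union hST ihS ihT fun l => ?_
    obtain ⟨l', h1, h2⟩ := hG1 l
    exact ⟨l', h1, fun a ha b hb => iff_of_true (hadj a ha b hb) h2⟩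

end Pool.Agent.MP_815355_co

end

-- part MP_815355_co.Main
section

/-! Weak randomness of the blow-ups and the antichain. -/

namespace Pool.Agent.MP_815355_co

open MeasureTheory Finset

theorem sum_density_le_of_small (G : Set ℕ) {n : ℕ} (P : Finset (SimpleGraph (Fin n))) (D : ℕ)
    (ε : ℝ) (hε : 0 ≤ ε) (h : ∀ x : Fin n → unitInterval, graphOf G x ∈ P →
      ((univ.image fun a => cyl D (x a)).card : ℝ) ≤ ε * 2 ^ D) :
    ∑ F ∈ P, density (WG G) F ≤ 2 ^ (2 ^ D) * ε ^ n := by
  classical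
  let 𝓑 : Finset (Finset ℕ) := (range (2 ^ D)).powerset.filter fun B => (B.card : ℝ) ≤ ε * 2 ^ D
  let T : Finset (Fin n → ℕ) := 𝓑.biUnion fun B => Fintype.piFinset fun _ => B
  have h1 := sum_density_WG_le G P ((fun x a => cyl D (x a)) ⁻¹' T)
    (measurable_cylpi n D T.measurableSet) (by
      intro x hx
      refine mem_coe.2 (mem_biUnion.2 ⟨univ.image fun a => cyl D (x a), ?_, ?_⟩)
      · refine mem_filter.2 ⟨mem_powerset.2 fun u hu => ?_, h x hx⟩
        obtain ⟨a, -, rfl⟩ := mem_image.1 hu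
        exact mem_range.2 (cyl_lt D _)
      · exact Fintype.mem_piFinset.2 fun a => mem_image_of_mem _ (mem_univ a))
  have h2 : (T.card : ℝ) ≤ 2 ^ (2 ^ D) * (ε * 2 ^ D) ^ n := by
    have a1 : T.card ≤ ∑ B ∈ 𝓑, B.card ^ n := card_biUnion_le.trans (by simp)
    have a2 : (T.card : ℝ) ≤ ∑ B ∈ 𝓑, (B.card : ℝ) ^ n := by exact_mod_cast a1
    have a3 : ∑ B ∈ 𝓑, (B.card : ℝ) ^ n ≤ 𝓑.card • (ε * 2 ^ D) ^ n :=
      sum_le_card_nsmul _ _ _ fun B hB =>
        pow_le_pow_left₀ (Nat.cast_nonneg _) (mem_filter.1 hB).2 n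
    have a4 : 𝓑.card ≤ 2 ^ (2 ^ D) := (card_filter_le _ _).trans (by simp)
    have a5 : (𝓑.card : ℝ) ≤ 2 ^ (2 ^ D) := by exact_mod_cast a4
    rw [nsmul_eq_mul] at a3
    exact a2.trans (a3.trans (by gcongr))
  refine h1.trans ((vol_T_le T).trans ?_)
  calc (T.card : ℝ) * (1 / 2 ^ D) ^ n ≤ 2 ^ (2 ^ D) * (ε * 2 ^ D) ^ n * (1 / 2 ^ D) ^ n := by
        gcongr
    _ = _ := by
        rw [mul_assoc, ← mul_pow]
        congr 2
        field_simp

theorem cographs_subset_Pset {G : Set ℕ} (hG1 : ∀ l, ∃ l' ≥ l, l' ∈ G)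
    (hG2 : ∀ l, ∃ l' ≥ l, l' ∉ G) : cographs ⊆ Pset (WG G) := by
  classical
  rintro ⟨h, H⟩ hH ψ hψ
  obtain ⟨c, hc, hcψ⟩ := hψ.exists_const
  refine lt_of_le_of_ne (density_nonneg ψ H) fun h0 => ?_
  obtain ⟨D, hD⟩ := emb_of_cographOn hG1 hG2 hH (c / 2) (by positivity) 0
  have key : ∀ n : ℕ, c ^ n ≤ 2 ^ (2 ^ D) * (c / 2) ^ n := by
    intro n
    let P : Finset (SimpleGraph (Fin n)) := univ.filter fun F => ¬ ∃ e : Fin h → Fin n,
      Function.Injective e ∧ ∀ a b, a ≠ b → (H.Adj a b ↔ F.Adj (e a) (e b))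
    have h1 : ∑ F ∈ P, density ψ F = 1 := by
      rw [← sum_density ψ n]
      refine sum_subset (subset_univ _) fun F _ hF => ?_
      simp only [P, mem_filter, mem_univ, true_and, not_not] at hF
      obtain ⟨e, he, hadj⟩ := hF
      exact density_eq_zero_of_copy ψ H F e he hadj h0.symm
    calc c ^ n = ∑ F ∈ P, c ^ n * density ψ F := by rw [← mul_sum, h1, mul_one]
      _ ≤ ∑ F ∈ P, density (WG G) F := sum_le_sum fun F _ => hcψ n F
      _ ≤ _ := sum_density_le_of_small G P D (c / 2) (by positivity) fun x hx => ?_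
    by_contra hcon
    have h2 : cnt (univ.image fun a => cyl D (x a)) D 0 0 =
        (univ.image fun a => cyl D (x a)).card := by
      unfold cnt
      rw [filter_true_of_mem]
      intro u hu
      obtain ⟨a, -, rfl⟩ := mem_image.1 hu
      exact Nat.div_eq_of_lt (cyl_lt D _)
    obtain ⟨g, hg1, hg2⟩ := hD D le_rfl (univ.image fun a => cyl D (x a)) 0 (by
      rw [h2]; simpa using hcon)
    have hg3 : ∀ a, ∃ i, cyl D (x i) = g a := fun a => by
      simpa using hg1 a (Set.mem_univ a)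
    choose e he using hg3
    refine (mem_filter.1 hx).2 ⟨e, fun a b hab => ?_, fun a b hab => ?_⟩
    · by_contra hne
      exact (hg2 a trivial b trivial hne).1 (by rw [← he a, ← he b, hab])
    · obtain ⟨h3, h4⟩ := hg2 a trivial b trivial hab
      rw [← he a, ← he b] at h3 h4
      rw [h4, ← padj_iff_adj h3]
      rfl
  have h5 := key (2 ^ D + 1)
  rw [div_pow, pow_succ (2 : ℝ)] at h5
  have h6 : 0 < c ^ (2 ^ D + 1) := by positivity
  have h7 : (2 : ℝ) ^ 2 ^ D * (c ^ (2 ^ D + 1) / (2 ^ 2 ^ D * 2)) = c ^ (2 ^ D + 1) / 2 := by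
    field_simp
  linarith

theorem WG_mem_Phi {G : Set ℕ} (hG1 : ∀ l, ∃ l' ≥ l, l' ∈ G) (hG2 : ∀ l, ∃ l' ≥ l, l' ∉ G) :
    WG G ∈ Phi := by
  have h1 : Pset (WG G) ⊆ Qset (WG G) := fun H hH =>
    hH _ (SubObject.of_weaklyIso fun _ _ => rfl)
  have h2 := Qset_WG_subset G
  have h3 := cographs_subset_Pset hG1 hG2
  exact ⟨h1.antisymm (h2.trans h3), h2.antisymm (h3.trans h1)⟩

theorem clique_upper {G : Set ℕ} {a D : ℕ} (haD : a ≤ D) (hG : ∀ l, a ≤ l → l < D → l ∉ G)
    (n : ℕ) : density (WG G) (⊤ : SimpleGraph (Fin n)) ≤ 2 ^ (2 ^ D) * (2 ^ a / 2 ^ D) ^ n := by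
  classical
  have := sum_density_le_of_small G {(⊤ : SimpleGraph (Fin n))} D (2 ^ a / 2 ^ D) (by positivity)
    (by
      intro x hx
      rw [mem_singleton] at hx
      rw [div_mul_cancel₀ _ (by positivity)]
      have h1 : (univ.image fun i => cyl D (x i)).card ≤ (range (2 ^ a)).card := by
        refine card_le_card_of_injOn (fun u => u / 2 ^ (D - a)) ?_ ?_
        · intro u hu
          obtain ⟨i, -, rfl⟩ := mem_image.1 hu
          simp only [cyl_div haD]
          exact mem_coe.2 (mem_range.2 (cyl_lt a _))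
        · intro u hu v hv huv
          obtain ⟨i, -, rfl⟩ := mem_image.1 hu
          obtain ⟨j, -, rfl⟩ := mem_image.1 hv
          simp only [cyl_div haD] at huv
          by_contra hne
          have hij : i ≠ j := fun h => hne (by rw [h])
          have hadj : (graphOf G x).Adj i j := by rw [hx]; exact hij
          obtain ⟨l, h1, h2, h3⟩ := hadj
          have hl : l < D := by
            by_contra hl
            exact hne (cyl_eq_of_le (not_lt.1 hl) h2)
          have hl2 : l < a := by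
            by_contra hl2
            exact hG l (not_lt.1 hl2) hl h1
          exact h3 (cyl_eq_of_le hl2 huv)
      rw [card_range] at h1
      exact_mod_cast h1)
  simpa using this

theorem exists_split {a : ℕ} {x y : unitInterval} (h1 : cyl a x = cyl a y) :
    ∀ E, a ≤ E → cyl E x ≠ cyl E y →
      ∃ l, a ≤ l ∧ l < E ∧ cyl l x = cyl l y ∧ cyl (l + 1) x ≠ cyl (l + 1) y := by
  intro E hE
  induction E, hE using Nat.le_induction with
  | base => exact fun h => absurd h1 h
  | succ E hE ih =>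
    intro h
    by_cases h2 : cyl E x = cyl E y
    · exact ⟨E, hE, Nat.lt_succ_self E, h2, h⟩
    · obtain ⟨l, a1, a2, a3⟩ := ih h2
      exact ⟨l, a1, Nat.lt_succ_of_lt a2, a3⟩

theorem clique_lower {G : Set ℕ} {a s : ℕ} (hG : ∀ l, a ≤ l → l < a + s → l ∈ G)
    (n : ℕ) (hn : 2 * n ≤ 2 ^ s) :
    (1 / 2 ^ (a + 1) : ℝ) ^ n ≤ density (WG G) (⊤ : SimpleGraph (Fin n)) := by
  classical
  let T : Finset (Fin n → ℕ) :=
    (univ : Finset (Fin n ↪ Fin (2 ^ s))).image fun e i => (e i : ℕ)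
  have hT : T.card = (2 ^ s).descFactorial n := by
    rw [card_image_of_injective, card_univ, Fintype.card_embedding_eq]
    · simp
    · intro e e' h
      ext i
      exact congrFun h i
  have h1 := le_density_WG G (⊤ : SimpleGraph (Fin n)) ((fun x i => cyl (a + s) (x i)) ⁻¹' T)
    (measurable_cylpi n _ T.measurableSet) (by
      intro x hx
      obtain ⟨e, -, he⟩ := mem_image.1 (mem_coe.1 hx)
      have he' : ∀ i, cyl (a + s) (x i) = e i := fun i => (congrFun he i).symm
      have h0 : ∀ i, cyl a (x i) = 0 := fun i => by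
        rw [← cyl_div (Nat.le_add_right a s), he', Nat.add_sub_cancel_left]
        exact Nat.div_eq_of_lt (e i).2
      rw [eq_top_iff]
      intro i j hij
      obtain ⟨l, a1, a2, a3, a4⟩ := exists_split ((h0 i).trans (h0 j).symm) (a + s)
        (Nat.le_add_right a s) (by
          rw [he', he']
          exact fun h => hij (e.injective (Fin.ext h)))
      exact ⟨l, hG l a1 a2, a3, a4⟩)
  rw [vol_T_eq T (by
    intro g hg i
    obtain ⟨e, -, rfl⟩ := mem_image.1 hg
    exact (e i).2.trans_le (Nat.pow_le_pow_right (by norm_num) (Nat.le_add_left s a))), hT] at h1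
  refine le_trans ?_ h1
  have h2 := Nat.pow_sub_le_descFactorial (2 ^ s) n
  have h3 : ((2 : ℝ) ^ s / 2) ^ n ≤ ((2 ^ s).descFactorial n : ℕ) := by
    have h4 : (((2 ^ s + 1 - n) ^ n : ℕ) : ℝ) ≤ ((2 ^ s).descFactorial n : ℕ) := by exact_mod_cast h2
    refine le_trans ?_ h4
    rw [Nat.cast_pow]
    refine pow_le_pow_left₀ (by positivity) ?_ n
    have h5 : 2 ^ s ≤ (2 ^ s + 1 - n) * 2 := by omega
    have h6 : ((2 ^ s : ℕ) : ℝ) ≤ ((2 ^ s + 1 - n : ℕ) : ℝ) * 2 := by exact_mod_cast h5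
    rw [div_le_iff₀ (by norm_num)]
    simpa using h6
  calc (1 / 2 ^ (a + 1) : ℝ) ^ n = ((2 : ℝ) ^ s / 2) ^ n * (1 / 2 ^ (a + s)) ^ n := by
        rw [← mul_pow]
        congr 1
        rw [pow_add, pow_add]
        field_simp
    _ ≤ _ := by gcongr

theorem not_subObject {G G' : Set ℕ}
    (h : ∀ m, ∃ a ≥ m, ∀ l, a ≤ l → l < 5 * a → l ∈ G ∧ l ∉ G') :
    ¬ SubObject (WG G) (WG G') := by
  intro hsub
  obtain ⟨c, hc, hcψ⟩ := hsub.exists_const
  obtain ⟨m, hm⟩ := exists_pow_lt_of_lt_one (by positivity : 0 < c / 4)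
    (by norm_num : (1 / 2 : ℝ) < 1)
  obtain ⟨a, ha, hl⟩ := h (m + 1)
  have h1 := clique_lower (G := G) (a := a) (s := 3 * a + 1)
    (fun l h1 h2 => (hl l h1 (by omega)).1) (2 ^ (3 * a)) (by rw [pow_succ]; omega)
  have h2 := clique_upper (G := G') (a := a) (D := 3 * a) (by omega)
    (fun l h1 h2 => (hl l h1 (by omega)).2) (2 ^ (3 * a))
  have h3 := hcψ (2 ^ (3 * a)) ⊤
  have h4 : (c * (1 / 2 ^ (a + 1))) ^ (2 ^ (3 * a)) ≤
      (2 * (2 ^ a / 2 ^ (3 * a)) : ℝ) ^ (2 ^ (3 * a)) := by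
    rw [mul_pow, mul_pow]
    exact le_trans (by gcongr) (h3.trans h2)
  have h5 := (pow_le_pow_iff_left₀ (by positivity) (by positivity) (by positivity)).1 h4
  have h6 : (1 / 2 : ℝ) ^ a ≤ (1 / 2) ^ m := pow_le_pow_of_le_one (by norm_num) (by norm_num)
    (by omega)
  have h7 : (2 : ℝ) ^ (3 * a) = 2 ^ a * 2 ^ a * 2 ^ a := by rw [← pow_add, ← pow_add]; congr 1; ring
  have hp : (0 : ℝ) < 2 ^ a := by positivity
  rw [h7, pow_succ] at h5
  have h8 : c / 4 ≤ (1 / 2) ^ a := by
    rw [one_div, inv_pow]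
    have e1 : c / 4 = c * (1 / (2 ^ a * 2)) * (2 ^ a / 2) := by field_simp; norm_num
    have e2 : ((2 : ℝ) ^ a)⁻¹ = 2 * (2 ^ a / (2 ^ a * 2 ^ a * 2 ^ a)) * (2 ^ a / 2) := by field_simp
    rw [e1, e2]
    gcongr
  linarith

/-- the choice made on the blocks with label `t` -/
def sel (A : Set ℕ) (t : ℕ) : Prop := if t % 2 = 0 then t / 2 ∈ A else t / 2 ∉ A

/-- the join levels of the blow-up attached to `A` -/
def levels (A : Set ℕ) : Set ℕ := {l | sel A (Nat.unpair (Nat.log 5 l)).1}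

theorem exists_block (t m : ℕ) :
    ∃ a ≥ m, 1 ≤ a ∧ ∀ l, a ≤ l → l < 5 * a → (Nat.unpair (Nat.log 5 l)).1 = t := by
  refine ⟨5 ^ Nat.pair t m, ?_, Nat.one_le_pow _ _ (by norm_num), fun l h1 h2 => ?_⟩
  · exact (Nat.right_le_pair t m).trans (Nat.lt_pow_self (by norm_num)).le
  · rw [Nat.log_eq_of_pow_le_of_lt_pow h1 (by rw [pow_succ]; omega), Nat.unpair_pair]

theorem levels_mem_Phi (A : Set ℕ) : WG (levels A) ∈ Phi := by
  have h : ∀ t l, ∃ l' ≥ l, (l' ∈ levels A ↔ sel A t) := by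
    intro t l
    obtain ⟨a, h1, h2, h3⟩ := exists_block t l
    exact ⟨a, h1, by rw [← h3 a le_rfl (by omega)]; rfl⟩
  by_cases h0 : 0 ∈ A
  · refine WG_mem_Phi (fun l => ?_) fun l => ?_
    · obtain ⟨l', h1, h2⟩ := h 0 l
      exact ⟨l', h1, h2.2 (by simp [sel, h0])⟩
    · obtain ⟨l', h1, h2⟩ := h 1 l
      exact ⟨l', h1, fun h3 => by simpa [sel, h0] using h2.1 h3⟩
  · refine WG_mem_Phi (fun l => ?_) fun l => ?_
    · obtain ⟨l', h1, h2⟩ := h 1 l
      exact ⟨l', h1, h2.2 (by simp [sel, h0])⟩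
    · obtain ⟨l', h1, h2⟩ := h 0 l
      exact ⟨l', h1, fun h3 => by simpa [sel, h0] using h2.1 h3⟩

theorem levels_not_subObject {A B : Set ℕ} (hAB : A ≠ B) :
    ¬ SubObject (WG (levels A)) (WG (levels B)) := by
  obtain ⟨t, ht1, ht2⟩ : ∃ t, sel A t ∧ ¬ sel B t := by
    obtain ⟨s, hs⟩ : ∃ s, ¬ (s ∈ A ↔ s ∈ B) := by
      by_contra hcon
      push Not at hcon
      exact hAB (Set.ext hcon)
    by_cases hA : s ∈ A
    · have hB : s ∉ B := fun h => hs (iff_of_true hA h)
      exact ⟨2 * s, by simp [sel, hA], by simp [sel, hB]⟩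
    · have hB : s ∈ B := by
        by_contra h
        exact hs (iff_of_false hA h)
      have e1 : (2 * s + 1) % 2 = 1 := by omega
      have e2 : (2 * s + 1) / 2 = s := by omega
      exact ⟨2 * s + 1, by simp [sel, hA, e1, e2], by simp [sel, hB, e1, e2]⟩
  refine not_subObject fun m => ?_
  obtain ⟨a, h1, -, h3⟩ := exists_block t m
  refine ⟨a, h1, fun l h4 h5 => ?_⟩
  simp only [levels, Set.mem_ofPred_eq, h3 l h4 h5]
  exact ⟨ht1, ht2⟩

end Pool.Agent.MP_815355_co

end
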